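import Pool.Agent.J4.H7.RDR.Schur
import Pool.Agent.J4.H7.RDR.Word

/-!
# Finite subgroups of groups which have a unitary representation with Property RD

Let `Γ` be a finitely generated group with a unitary representation which has Property RD. Then the
orders of the finite subgroups of `Γ` contained in the ball of radius `n` are bounded by a
polynomial in `n`.

Proof. Let `F` be a finite subgroup and `W` a minimal `F`-invariant subspace, of dimension `k`. By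
Schur's orthogonality relations `∑_{g ∈ F} |⟨π(g) v, v⟩| ^ 2 = #F / k` for the unit vectors `v` of
`W`, and `k ^ 2 ≤ #F` as the matrix coefficients are linearly independent, so this sum is at least
`√#F`. By Property RD it is at most `C (1 + n) ^ s`.
-/

set_option autoImplicit false

namespace Pool.Agent.Results.MP_663661_an.FiniteSubgroups

open scoped ComplexInnerProductSpace

/-- the word length `|g|_S` -/
noncomputable def wordLength {Γ : Type} [Group Γ] (S : Finset Γ) (g : Γ) : ℕ :=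
  sInf {n | ∃ l : List Γ, l.length = n ∧ (∀ x ∈ l, x ∈ S) ∧ l.prod = g}

/-- the unitary representation `π` of `Γ` has Property RD for the word length of `S` -/
def HasRD {Γ : Type} [Group Γ] (S : Finset Γ) {H : Type} [NormedAddCommGroup H]
    [InnerProductSpace ℂ H] [CompleteSpace H] (π : Γ →* unitary (H →L[ℂ] H)) : Prop :=
  ∃ s C : ℝ, 0 < s ∧ ∀ v w : H, ‖v‖ = 1 → ‖w‖ = 1 →
    Summable (fun g : Γ => ‖⟪(π g : H →L[ℂ] H) v, w⟫‖ ^ 2 * (1 + (wordLength S g : ℝ)) ^ (-s)) ∧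
    ∑' g : Γ, ‖⟪(π g : H →L[ℂ] H) v, w⟫‖ ^ 2 * (1 + (wordLength S g : ℝ)) ^ (-s) ≤ C

open Pool.Agent.J4.H7.RDR in
theorem result (Γ : Type) [Group Γ] (S : Finset Γ) (hinv : ∀ x ∈ S, x⁻¹ ∈ S)
    (hgen : Subgroup.closure (S : Set Γ) = ⊤) (H : Type) [NormedAddCommGroup H]
    [InnerProductSpace ℂ H] [CompleteSpace H] [Nontrivial H] (π : Γ →* unitary (H →L[ℂ] H))
    (hπ : HasRD S π) :
    ∃ a c : ℝ, ∀ F : Subgroup Γ, Finite F → ∀ n : ℕ, (∀ g ∈ F, wordLength S g ≤ n) →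
      (Nat.card F : ℝ) ≤ c * (n + 1) ^ a := by
  obtain ⟨s, C, hs, hRD⟩ := hπ
  refine ⟨2 * s, C ^ 2, fun F hF n hn => ?_⟩
  classical
  haveI : Fintype F := Fintype.ofFinite F
  have h0 : (0 : ℝ) ≤ 1 + (n : ℝ) := by positivity
  have h1 := fin_le (π.comp F.subtype) ((1 + (n : ℝ)) ^ s * C) (fun v w hv hw => ?_)
  · rw [Nat.card_eq_fintype_card]
    refine h1.trans (le_of_eq ?_)
    rw [mul_pow, ← Real.rpow_natCast ((1 + (n : ℝ)) ^ s) 2, ← Real.rpow_mul h0, add_comm (1 : ℝ) n,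
      mul_comm]
    push_cast
    rw [mul_comm s 2]
  · obtain ⟨hsum, hle⟩ := hRD v w hv hw
    have h2 : ∀ g : F, ‖⟪op (π.comp F.subtype) g v, w⟫‖ ^ 2 ≤ (1 + (n : ℝ)) ^ s *
        (‖⟪(π (g : Γ) : H →L[ℂ] H) v, w⟫‖ ^ 2 * (1 + (wordLength S (g : Γ) : ℝ)) ^ (-s)) := by
      intro g
      have h3 : (1 : ℝ) ≤ (1 + (n : ℝ)) ^ s * (1 + (wordLength S (g : Γ) : ℝ)) ^ (-s) := by
        have h4 : (0 : ℝ) < 1 + (wordLength S (g : Γ) : ℝ) := by positivity
        rw [Real.rpow_neg h4.le, ← div_eq_mul_inv, one_le_div (by positivity)]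
        refine Real.rpow_le_rpow h4.le ?_ hs.le
        have h6 : (wordLength S (g : Γ) : ℝ) ≤ n := by exact_mod_cast hn g g.2
        linarith
      calc ‖⟪op (π.comp F.subtype) g v, w⟫‖ ^ 2 = ‖⟪(π (g : Γ) : H →L[ℂ] H) v, w⟫‖ ^ 2 * 1 :=
            (mul_one _).symm
        _ ≤ ‖⟪(π (g : Γ) : H →L[ℂ] H) v, w⟫‖ ^ 2 *
            ((1 + (n : ℝ)) ^ s * (1 + (wordLength S (g : Γ) : ℝ)) ^ (-s)) :=
          mul_le_mul_of_nonneg_left h3 (by positivity)
        _ = _ := by ring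
    have h7 : ∑ g : F, ‖⟪(π (g : Γ) : H →L[ℂ] H) v, w⟫‖ ^ 2 *
        (1 + (wordLength S (g : Γ) : ℝ)) ^ (-s) ≤ C := by
      refine le_trans ?_ hle
      have h8 := hsum.sum_le_tsum (Finset.univ.map (Function.Embedding.subtype (· ∈ F)))
        (fun g _ => by positivity)
      rw [Finset.sum_map] at h8
      exact h8
    calc ∑ g : F, ‖⟪op (π.comp F.subtype) g v, w⟫‖ ^ 2 ≤ ∑ g : F, (1 + (n : ℝ)) ^ s *
        (‖⟪(π (g : Γ) : H →L[ℂ] H) v, w⟫‖ ^ 2 * (1 + (wordLength S (g : Γ) : ℝ)) ^ (-s)) :=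
          Finset.sum_le_sum fun g _ => h2 g
      _ = (1 + (n : ℝ)) ^ s * ∑ g : F,
        (‖⟪(π (g : Γ) : H →L[ℂ] H) v, w⟫‖ ^ 2 * (1 + (wordLength S (g : Γ) : ℝ)) ^ (-s)) :=
          (Finset.mul_sum _ _ _).symm
      _ ≤ (1 + (n : ℝ)) ^ s * C := mul_le_mul_of_nonneg_left h7 (by positivity)

end Pool.Agent.Results.MP_663661_an.FiniteSubgroups
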