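import Pool.Agent.J4.H7.RDR.Square

/-!
# Groups which contain their own square have no representation with Property RD

Let `Γ` be a finitely generated group with a unitary representation which has Property RD. If a
finitely generated subgroup `K` of `Γ` admits an injective homomorphism `φ : K × K → K`, then `K` is
trivial. The same holds without finite generation of `K` if `φ` is Lipschitz for the word length of
`Γ`.

Proof. Let `g ∈ K`, `g ≠ 1`, `E 0 = {1, g}` and `E (k + 1) = φ (E k × E k)`. The set `E k` consists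
of `2 ^ 2 ^ k` commuting elements of length at most `C ^ k`. For commuting unitary operators there
are phases for which the norm of the sum is the number of the operators (`phases`), so Property RD
bounds the number of commuting elements of length `≤ n` by a polynomial in `n`, a contradiction.
-/

set_option autoImplicit false

namespace Pool.Agent.Results.MP_663661_an.SelfSquareSubgroups

open scoped ComplexInnerProductSpace

/-- the word length `|g|_S` -/
noncomputable def wordLength {Γ : Type} [Group Γ] (S : Finset Γ) (g : Γ) : ℕ :=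
  sInf {n | ∃ l : List Γ, l.length = n ∧ (∀ x ∈ l, x ∈ S) ∧ l.prod = g}

/-- the unitary representation `π` of `Γ` has Property RD for the word length of `S` -/
def HasRD {Γ : Type} [Group Γ] (S : Finset Γ) {H : Type} [NormedAddCommGroup H]
    [InnerProductSpace ℂ H] [CompleteSpace H] (π : Γ →* unitary (H →L[ℂ] H)) : Prop :=
  ∃ s C : ℝ, 0 < s ∧ ∀ v w : H, ‖v‖ = 1 → ‖w‖ = 1 →
    Summable (fun g : Γ => ‖⟪(π g : H →L[ℂ] H) v, w⟫‖ ^ 2 * (1 + (wordLength S g : ℝ)) ^ (-s)) ∧
    ∑' g : Γ, ‖⟪(π g : H →L[ℂ] H) v, w⟫‖ ^ 2 * (1 + (wordLength S g : ℝ)) ^ (-s) ≤ C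

open Pool.Agent.J4.H7.RDR in
theorem result (Γ : Type) [Group Γ] (S : Finset Γ) (hinv : ∀ x ∈ S, x⁻¹ ∈ S)
    (hgen : Subgroup.closure (S : Set Γ) = ⊤) (H : Type) [NormedAddCommGroup H]
    [InnerProductSpace ℂ H] [CompleteSpace H] [Nontrivial H] (π : Γ →* unitary (H →L[ℂ] H))
    (hπ : HasRD S π) (K : Subgroup Γ) (φ : K × K →* K) (hφ : Function.Injective φ)
    (hK : K.FG ∨ ∃ c : ℕ, ∀ x y : K, wordLength S (φ (x, y) : Γ) ≤
      c * (wordLength S (x : Γ) + wordLength S (y : Γ))) : K = ⊥ := by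
  obtain ⟨s, C, hs, hRD⟩ := hπ
  have hL : Len (wl S) := len_wl S hinv hgen
  obtain ⟨a₂, ha₂⟩ := pow_unbounded_of_one_lt C (one_lt_two)
  obtain ⟨a₁, ha₁⟩ := exists_nat_ge s
  have hab : ∀ n : ℕ, ∀ E : Finset Γ, (∀ x ∈ E, ∀ y ∈ E, Commute x y) →
      (∀ x ∈ E, wl S x ≤ n) → E.card ≤ (n + 2) ^ (a₁ + a₂) := by
    intro n E hE hEn
    have h1 : (E.card : ℝ) ≤ (1 + (n : ℝ)) ^ s * C := by
      refine card_le π E hE _ fun v w hv hw => ?_
      obtain ⟨hsum, hle⟩ := hRD v w hv hw
      have h2 : ∀ g ∈ E, ‖⟪op π g v, w⟫‖ ^ 2 ≤ (1 + (n : ℝ)) ^ s *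
          (‖⟪(π g : H →L[ℂ] H) v, w⟫‖ ^ 2 * (1 + (wordLength S g : ℝ)) ^ (-s)) := by
        intro g hg
        have h3 : (1 : ℝ) ≤ (1 + (n : ℝ)) ^ s * (1 + (wordLength S g : ℝ)) ^ (-s) := by
          have h4 : (0 : ℝ) < 1 + (wordLength S g : ℝ) := by positivity
          rw [Real.rpow_neg h4.le, ← div_eq_mul_inv, one_le_div (by positivity)]
          refine Real.rpow_le_rpow h4.le ?_ hs.le
          have h5 : wordLength S g ≤ n := hEn g hg
          have h6 : (wordLength S g : ℝ) ≤ n := by exact_mod_cast h5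
          linarith
        calc ‖⟪op π g v, w⟫‖ ^ 2 = ‖⟪(π g : H →L[ℂ] H) v, w⟫‖ ^ 2 * 1 := (mul_one _).symm
          _ ≤ ‖⟪(π g : H →L[ℂ] H) v, w⟫‖ ^ 2 *
              ((1 + (n : ℝ)) ^ s * (1 + (wordLength S g : ℝ)) ^ (-s)) :=
            mul_le_mul_of_nonneg_left h3 (by positivity)
          _ = _ := by ring
      calc ∑ g ∈ E, ‖⟪op π g v, w⟫‖ ^ 2 ≤ ∑ g ∈ E, (1 + (n : ℝ)) ^ s *
          (‖⟪(π g : H →L[ℂ] H) v, w⟫‖ ^ 2 * (1 + (wordLength S g : ℝ)) ^ (-s)) :=
            Finset.sum_le_sum h2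
        _ = (1 + (n : ℝ)) ^ s * ∑ g ∈ E,
          (‖⟪(π g : H →L[ℂ] H) v, w⟫‖ ^ 2 * (1 + (wordLength S g : ℝ)) ^ (-s)) :=
            (Finset.mul_sum _ _ _).symm
        _ ≤ (1 + (n : ℝ)) ^ s * C := by
            refine mul_le_mul_of_nonneg_left ?_ (by positivity)
            refine le_trans (hsum.sum_le_tsum E fun g _ => by positivity) hle
    have h7 : (1 + (n : ℝ)) ^ s * C ≤ ((n + 2 : ℕ) : ℝ) ^ (a₁ + a₂) := by
      have h8 : (1 + (n : ℝ)) ^ s ≤ ((n + 2 : ℕ) : ℝ) ^ a₁ := by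
        rw [← Real.rpow_natCast]
        calc (1 + (n : ℝ)) ^ s ≤ ((n + 2 : ℕ) : ℝ) ^ s := by
              refine Real.rpow_le_rpow (by positivity) ?_ hs.le
              push_cast
              linarith
          _ ≤ ((n + 2 : ℕ) : ℝ) ^ (a₁ : ℝ) := by
              refine Real.rpow_le_rpow_of_exponent_le ?_ ha₁
              push_cast
              have : (0 : ℝ) ≤ n := Nat.cast_nonneg n
              linarith
      have h9 : C ≤ ((n + 2 : ℕ) : ℝ) ^ a₂ := by
        refine ha₂.le.trans (pow_le_pow_left₀ (by norm_num) ?_ _)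
        push_cast
        have : (0 : ℝ) ≤ n := Nat.cast_nonneg n
        linarith
      rw [pow_add]
      exact (mul_le_mul_of_nonneg_left h9 (by positivity)).trans
        (mul_le_mul_of_nonneg_right h8 (by positivity))
    exact_mod_cast h1.trans h7
  rw [Subgroup.eq_bot_iff_forall]
  intro g hg
  rcases hK with hK | ⟨c, hc⟩
  · haveI : Group.FG K := (Group.fg_iff_subgroup_fg K).2 hK
    have h1 := sq_fg φ hφ K.subtype (Subgroup.subtype_injective K) (wl S) hL (a₁ + a₂) hab ⟨g, hg⟩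
    exact congrArg Subtype.val h1
  · have h1 := sq_trivial φ hφ (fun x : K => wl S (x : Γ)) c (fun x y => hc x y) K.subtype
      (Subgroup.subtype_injective K) (wl S) 1 (fun x => by simp) (a₁ + a₂) hab ⟨g, hg⟩
    exact congrArg Subtype.val h1

end Pool.Agent.Results.MP_663661_an.SelfSquareSubgroups
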