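import Pool.Agent.J4.H7.RDR.Pos2
import Pool.Agent.J4.H7.RDR.Neg

/-!
# Representations with Property RD and a coefficient with small negative part

Let `Γ` be a finitely generated group with a unitary representation `π` which has Property RD, and
suppose there is a unit vector `v` such that the negative parts of `Re ⟨π(g) v, v⟩` have a sum less
than `1`. Then `Γ` has Property RD. So in an example for Q1 every unit vector has negative parts with
sum at least `1`.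

Proof. Let `f ≥ 0` be finitely supported, `A = λ(f)* λ(f)`, `a_m = ⟨A ^ m δ, δ⟩`. For even `m` the
entries of `A ^ m` are nonnegative and at most `a_m`, so `‖π(f)‖ ^ (2 m) ≥ Re ⟨π(A ^ m) v, v⟩ ≥
(1 - η) a_m`. By invariance under right translations `⟨A ^ m x, x⟩ ≤ (∑ x) ^ 2 a_m`, and
`⟨A x, x⟩ ^ m ≤ ⟨A ^ m x, x⟩ ‖x‖ ^ (2 m - 2)` for `m = 2 ^ j`, so `‖λ(f) x‖ ≤ ‖π(f)‖ ‖x‖`. Property
RD of `π` bounds `‖π(f)‖`, and the general case follows by taking absolute values.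
-/

set_option autoImplicit false

namespace Pool.Agent.Results.MP_663661_an.SmallNegativePart

open scoped ComplexInnerProductSpace

/-- the word length `|g|_S` -/
noncomputable def wordLength {Γ : Type} [Group Γ] (S : Finset Γ) (g : Γ) : ℕ :=
  sInf {n | ∃ l : List Γ, l.length = n ∧ (∀ x ∈ l, x ∈ S) ∧ l.prod = g}

/-- the unitary representation `π` of `Γ` has Property RD for the word length of `S` -/
def HasRD {Γ : Type} [Group Γ] (S : Finset Γ) {H : Type} [NormedAddCommGroup H]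
    [InnerProductSpace ℂ H] [CompleteSpace H] (π : Γ →* unitary (H →L[ℂ] H)) : Prop :=
  ∃ s C : ℝ, 0 < s ∧ ∀ v w : H, ‖v‖ = 1 → ‖w‖ = 1 →
    Summable (fun g : Γ => ‖⟪(π g : H →L[ℂ] H) v, w⟫‖ ^ 2 * (1 + (wordLength S g : ℝ)) ^ (-s)) ∧
    ∑' g : Γ, ‖⟪(π g : H →L[ℂ] H) v, w⟫‖ ^ 2 * (1 + (wordLength S g : ℝ)) ^ (-s) ≤ C

/-- the group `Γ` has Property RD for the word length of `S`: for finitely supported `f` and all
`ξ ∈ ℓ²(Γ)` the convolution `f * ξ` lies in `ℓ²(Γ)` and `‖f * ξ‖₂ ≤ C ‖f‖_{2,s} ‖ξ‖₂` -/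
def GroupRD {Γ : Type} [Group Γ] (S : Finset Γ) : Prop :=
  ∃ C s : ℝ, 0 ≤ C ∧ 0 ≤ s ∧ ∀ (f : Γ →₀ ℂ) (ξ : Γ → ℂ), Summable (fun x => ‖ξ x‖ ^ 2) →
    Summable (fun x => ‖∑ g ∈ f.support, f g * ξ (g⁻¹ * x)‖ ^ 2) ∧
    Real.sqrt (∑' x, ‖∑ g ∈ f.support, f g * ξ (g⁻¹ * x)‖ ^ 2) ≤
      C * Real.sqrt (∑ g ∈ f.support, ‖f g‖ ^ 2 * (1 + (wordLength S g : ℝ)) ^ (2 * s)) *
        Real.sqrt (∑' x, ‖ξ x‖ ^ 2)

open Pool.Agent.J4.H7.RDR in
theorem result (Γ : Type) [Group Γ] (S : Finset Γ) (hinv : ∀ x ∈ S, x⁻¹ ∈ S)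
    (hgen : Subgroup.closure (S : Set Γ) = ⊤) (H : Type) [NormedAddCommGroup H]
    [InnerProductSpace ℂ H] [CompleteSpace H] (π : Γ →* unitary (H →L[ℂ] H))
    (hπ : HasRD S π) (v : H) (hv : ‖v‖ = 1)
    (hsum : Summable (fun g : Γ => max 0 (-(⟪(π g : H →L[ℂ] H) v, v⟫).re)))
    (hlt : ∑' g : Γ, max 0 (-(⟪(π g : H →L[ℂ] H) v, v⟫).re) < 1) : GroupRD S := by
  obtain ⟨s, C, hs, hRD⟩ := hπ
  have hL : ∀ g : Γ, (0 : ℝ) < 1 + (wordLength S g : ℝ) := fun g => by positivity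
  have hC0 : 0 ≤ C := by
    refine le_trans (tsum_nonneg fun g => ?_) (hRD v v hv hv).2
    have := hL g
    positivity
  have hnorm : ∀ f : Γ →₀ ℂ, ‖PP π f.support (fun g => ‖f g‖)‖ ^ 2 ≤
      C * ∑ g ∈ f.support, ‖f g‖ ^ 2 * (1 + (wordLength S g : ℝ)) ^ s := by
    intro f
    refine norm_PP_le π f.support (fun g => ‖f g‖) (fun g => norm_nonneg _)
      (fun g => (1 + (wordLength S g : ℝ)) ^ s) (fun g => Real.rpow_pos_of_pos (hL g) _) C hC0
      fun a w ha hw => ?_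
    obtain ⟨hsum', hle⟩ := hRD a w ha hw
    refine le_trans (le_trans (le_of_eq ?_) (hsum'.sum_le_tsum f.support fun g _ => ?_)) hle
    · refine Finset.sum_congr rfl fun g _ => ?_
      rw [Real.rpow_neg (hL g).le]
      rfl
    · have := hL g
      positivity
  refine ⟨Real.sqrt C, s / 2, Real.sqrt_nonneg _, by positivity, fun f ξ hξ => ?_⟩
  have hb := conv_bound π (fun E f hf x hx => dom2 π v hv _ hlt
    (fun F => hsum.sum_le_tsum F fun g _ => le_max_left _ _) E f hf x hx) f ξ hξ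
  refine ⟨summable_of_sum_le (fun x => sq_nonneg _) hb, ?_⟩
  rw [← Real.sqrt_mul hC0, ← Real.sqrt_mul (mul_nonneg hC0 (Finset.sum_nonneg fun g _ =>
    mul_nonneg (sq_nonneg _) (Real.rpow_nonneg (hL g).le _)))]
  refine Real.sqrt_le_sqrt ?_
  refine (Real.tsum_le_of_sum_le (fun x => sq_nonneg _) hb).trans ?_
  refine mul_le_mul_of_nonneg_right ?_ (tsum_nonneg fun x => sq_nonneg _)
  rw [show 2 * (s / 2) = s by ring]
  exact hnorm f

end Pool.Agent.Results.MP_663661_an.SmallNegativePart
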