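import Pool.Agent.J4.H7.RDR.Word

/-!
# Soluble subgroups of groups which have a unitary representation with Property RD

Let `Γ` be a finitely generated group which has a unitary representation `π` with Property RD. Then
abelian subgroups have polynomial growth and soluble subgroups have growth at most
`exp (c (log n) ^ d)`, both measured with the word length of `Γ`; the constant `c` depends on the
derived length `d` only. The same holds, up to the index, for virtually soluble subgroups.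

Proof. For finitely many commuting unitary operators `u_g` there are phases `c_g` with
`‖∑ c_g u_g‖ = #E` (`phases`; by induction: for the normal operator `b = u⁻¹ ∑ c_g u_g` there is a
spectral value `z` with `|z| = ‖b‖`, and `|z + z/|z|| = |z| + 1`). With Property RD this bounds the
number of elements of length `≤ n` of an abelian subgroup (`card_le`). Let `A` be soluble, let
`P` be the number of elements of length `≤ 6 n` of `[A, A]` and `Q` the bound for abelian subgroups
at length `2 n`. If `x_1, …, x_j ∈ A` commute, have length `≤ 2 n`, and there are more than `P ^ j Q`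
elements `y` of length `≤ n` in `A`, then more than `Q` of them have the same commutators
`[x_i, y]`, the quotients of these commute with all `x_i`, and one of them does not lie in the
abelian group `⟨x_1, …, x_j⟩` (`step`). With `j` of the order of `log n` this gives an abelian group
generated by elements of length `≤ 2 n` with `2 ^ j` elements of length `≤ 2 n j`, which is too many
(`bound`). So `A` has at most `P ^ j Q` elements of length `≤ n`, and one concludes by induction on
the derived length (`soluble`).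
-/

set_option autoImplicit false

namespace Pool.Agent.Results.MP_663661_an.SolubleSubgroups

open scoped ComplexInnerProductSpace

/-- the word length `|g|_S` -/
noncomputable def wordLength {Γ : Type} [Group Γ] (S : Finset Γ) (g : Γ) : ℕ :=
  sInf {n | ∃ l : List Γ, l.length = n ∧ (∀ x ∈ l, x ∈ S) ∧ l.prod = g}

/-- the unitary representation `π` of `Γ` has Property RD for the word length of `S` -/
def HasRD {Γ : Type} [Group Γ] (S : Finset Γ) {H : Type} [NormedAddCommGroup H]
    [InnerProductSpace ℂ H] [CompleteSpace H] (π : Γ →* unitary (H →L[ℂ] H)) : Prop :=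
  ∃ s C : ℝ, 0 < s ∧ ∀ v w : H, ‖v‖ = 1 → ‖w‖ = 1 →
    Summable (fun g : Γ => ‖⟪(π g : H →L[ℂ] H) v, w⟫‖ ^ 2 * (1 + (wordLength S g : ℝ)) ^ (-s)) ∧
    ∑' g : Γ, ‖⟪(π g : H →L[ℂ] H) v, w⟫‖ ^ 2 * (1 + (wordLength S g : ℝ)) ^ (-s) ≤ C

open Pool.Agent.J4.H7.RDR in
theorem result (Γ : Type) [Group Γ] (S : Finset Γ) (hinv : ∀ x ∈ S, x⁻¹ ∈ S)
    (hgen : Subgroup.closure (S : Set Γ) = ⊤) (H : Type) [NormedAddCommGroup H]
    [InnerProductSpace ℂ H] [CompleteSpace H] [Nontrivial H] (π : Γ →* unitary (H →L[ℂ] H))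
    (hπ : HasRD S π) (d : ℕ) :
    ∃ c : ℝ, ∀ A B : Subgroup Γ, derivedSeries A d = ⊥ → A.relIndex B ≠ 0 → ∀ n : ℕ,
      ({g : Γ | g ∈ B ∧ wordLength S g ≤ n}.ncard : ℝ) ≤
        A.relIndex B * Real.exp (c * Real.log (n + 2) ^ d) := by
  obtain ⟨s, C, hs, hRD⟩ := hπ
  have hL : Len (wl S) := len_wl S hinv hgen
  obtain ⟨a₂, ha₂⟩ := pow_unbounded_of_one_lt C (one_lt_two)
  obtain ⟨a₁, ha₁⟩ := exists_nat_ge s
  have hab : ∀ n : ℕ, ∀ E : Finset Γ, (∀ x ∈ E, ∀ y ∈ E, Commute x y) →
      (∀ x ∈ E, wl S x ≤ n) → E.card ≤ (n + 2) ^ (a₁ + a₂) := by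
    intro n E hE hEn
    have h1 : (E.card : ℝ) ≤ (1 + (n : ℝ)) ^ s * C := by
      refine card_le π E hE _ fun v w hv hw => ?_
      obtain ⟨hsum, hle⟩ := hRD v w hv hw
      have h2 : ∀ g ∈ E, ‖⟪op π g v, w⟫‖ ^ 2 ≤ (1 + (n : ℝ)) ^ s *
          (‖⟪(π g : H →L[ℂ] H) v, w⟫‖ ^ 2 * (1 + (wordLength S g : ℝ)) ^ (-s)) := by
        intro g hg
        have h3 : (1 : ℝ) ≤ (1 + (n : ℝ)) ^ s * (1 + (wordLength S g : ℝ)) ^ (-s) := by
          have h4 : (0 : ℝ) < 1 + (wordLength S g : ℝ) := by positivity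
          rw [Real.rpow_neg h4.le, ← div_eq_mul_inv, one_le_div (by positivity)]
          refine Real.rpow_le_rpow h4.le ?_ hs.le
          have h5 : wordLength S g ≤ n := hEn g hg
          have h6 : (wordLength S g : ℝ) ≤ n := by exact_mod_cast h5
          linarith
        calc ‖⟪op π g v, w⟫‖ ^ 2 = ‖⟪(π g : H →L[ℂ] H) v, w⟫‖ ^ 2 * 1 := (mul_one _).symm
          _ ≤ ‖⟪(π g : H →L[ℂ] H) v, w⟫‖ ^ 2 *
              ((1 + (n : ℝ)) ^ s * (1 + (wordLength S g : ℝ)) ^ (-s)) :=
            mul_le_mul_of_nonneg_left h3 (by positivity)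
          _ = _ := by ring
      calc ∑ g ∈ E, ‖⟪op π g v, w⟫‖ ^ 2 ≤ ∑ g ∈ E, (1 + (n : ℝ)) ^ s *
          (‖⟪(π g : H →L[ℂ] H) v, w⟫‖ ^ 2 * (1 + (wordLength S g : ℝ)) ^ (-s)) :=
            Finset.sum_le_sum h2
        _ = (1 + (n : ℝ)) ^ s * ∑ g ∈ E,
          (‖⟪(π g : H →L[ℂ] H) v, w⟫‖ ^ 2 * (1 + (wordLength S g : ℝ)) ^ (-s)) :=
            (Finset.mul_sum _ _ _).symm
        _ ≤ (1 + (n : ℝ)) ^ s * C := by
            refine mul_le_mul_of_nonneg_left ?_ (by positivity)
            refine le_trans (hsum.sum_le_tsum E fun g _ => by positivity) hle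
    have h7 : (1 + (n : ℝ)) ^ s * C ≤ ((n + 2 : ℕ) : ℝ) ^ (a₁ + a₂) := by
      have h8 : (1 + (n : ℝ)) ^ s ≤ ((n + 2 : ℕ) : ℝ) ^ a₁ := by
        rw [← Real.rpow_natCast]
        calc (1 + (n : ℝ)) ^ s ≤ ((n + 2 : ℕ) : ℝ) ^ s := by
              refine Real.rpow_le_rpow (by positivity) ?_ hs.le
              push_cast
              linarith
          _ ≤ ((n + 2 : ℕ) : ℝ) ^ (a₁ : ℝ) := by
              refine Real.rpow_le_rpow_of_exponent_le ?_ ha₁
              push_cast
              have : (0 : ℝ) ≤ n := Nat.cast_nonneg n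
              linarith
      have h9 : C ≤ ((n + 2 : ℕ) : ℝ) ^ a₂ := by
        refine ha₂.le.trans (pow_le_pow_left₀ (by norm_num) ?_ _)
        push_cast
        have : (0 : ℝ) ≤ n := Nat.cast_nonneg n
        linarith
      rw [pow_add]
      exact (mul_le_mul_of_nonneg_left h9 (by positivity)).trans
        (mul_le_mul_of_nonneg_right h8 (by positivity))
    exact_mod_cast h1.trans h7
  obtain ⟨c, hc⟩ := soluble hL (a₁ + a₂) hab d
  refine ⟨((c * 2 ^ d : ℕ) : ℝ) * (2 / Real.log 2) ^ d, fun A B hA hAB n => ?_⟩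
  have h1 : {g : Γ | g ∈ B ∧ wordLength S g ≤ n} = (bal hL B n : Set Γ) := by
    ext g
    rw [Finset.mem_coe, mem_bal]
    exact ⟨fun h => ⟨h.2, h.1⟩, fun h => ⟨h.2, h.1⟩⟩
  rw [h1, Set.ncard_coe_finset]
  have h2 : (bal hL B n).card ≤ A.relIndex B * 2 ^ ((c * 2 ^ d) * lg n ^ d) := by
    refine (card_virtual hL A B hAB n).trans (Nat.mul_le_mul_left _ ?_)
    refine (hc A hA (2 * n)).trans (Nat.pow_le_pow_right (by norm_num) ?_)
    calc c * lg (2 * n) ^ d ≤ c * (2 * lg n) ^ d :=
          Nat.mul_le_mul_left _ (Nat.pow_le_pow_left (lg_two n) d)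
      _ = c * 2 ^ d * lg n ^ d := by rw [mul_pow]; ring
  calc ((bal hL B n).card : ℝ) ≤ ((A.relIndex B * 2 ^ ((c * 2 ^ d) * lg n ^ d) : ℕ) : ℝ) := by
        exact_mod_cast h2
    _ = (A.relIndex B : ℝ) * ((2 ^ ((c * 2 ^ d) * lg n ^ d) : ℕ) : ℝ) := by push_cast; ring
    _ ≤ _ := mul_le_mul_of_nonneg_left (real_bound (c * 2 ^ d) d n) (Nat.cast_nonneg _)

end Pool.Agent.Results.MP_663661_an.SolubleSubgroups
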